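import Pool.Agent.Run7.h994.PK.Stm
import Pool.Agent.Run7.h462.KT.Bas

/-!
# Project PK (helper994): bridge to the definitions of project KT (helper462) (helper824)
-/

set_option autoImplicit false

namespace Run7.h824.PK

open Finset Filter Topology Polynomial
open Pool.Agent.H373R2.T7 (pz Vz mem_pz Vz_pos)
open Pool.Agent.TH204.WR (rho)

theorem Qk_eq {k : ℕ} (F : ℤ[X]) (y : ℕ) (u : Fin k → ℕ) :
    Run7.h994.PK.Qk F (y : ℤ) u = Run7.h462.KT.Q F (Run7.h462.KT.sh y u) := by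
  unfold Run7.h994.PK.Qk Run7.h462.KT.Q Run7.h462.KT.sh
  refine prod_congr rfl fun i _ => ?_
  push_cast
  rfl

theorem rk_eq {k : ℕ} (F : ℤ[X]) (y : ℕ) (u : Fin k → ℕ) (p : ℕ) :
    Run7.h994.PK.rk F (y : ℤ) u p = Run7.h462.KT.rk F (Run7.h462.KT.sh y u) p := by
  unfold Run7.h994.PK.rk Run7.h462.KT.rk
  rw [Qk_eq]

theorem gk_eq {k : ℕ} (F : ℤ[X]) (y : ℕ) (u : Fin k → ℕ) (z : ℕ) :
    Run7.h994.PK.gk F (y : ℤ) u z = Run7.h462.KT.gk F (Run7.h462.KT.sh y u) z := by
  unfold Run7.h994.PK.gk Run7.h462.KT.gk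
  simp only [rk_eq]

theorem nuk_eq {k : ℕ} (u : Fin k → ℕ) {p : ℕ} (hp : p.Prime) :
    Run7.h994.PK.nuk u p = Run7.h462.KT.rk (X : ℤ[X]) u p := by
  classical
  rw [Run7.h462.KT.rk_X u hp]
  rfl

theorem twk_eq {k : ℕ} (u : Fin k → ℕ) (w : ℕ) : Run7.h994.PK.twk u w = Run7.h462.KT.gk (X : ℤ[X]) u w := by
  rw [Run7.h462.KT.gk_eq_prod]
  unfold Run7.h994.PK.twk
  refine prod_congr rfl fun p hp => ?_
  rw [nuk_eq u (mem_pz.1 hp).2]

theorem ov_iff {k : ℕ} (u : Fin k → ℕ) (p : ℕ) : Run7.h462.KT.ov u p ↔ Run7.h994.PK.nuk u p < k := by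
  classical
  unfold Run7.h462.KT.ov Run7.h994.PK.nuk
  constructor
  · rintro ⟨i, j, hij, h⟩
    have h1 : #(univ.image (fun i => u i % p)) ≤ k := by
      refine card_image_le.trans ?_
      simp
    refine lt_of_le_of_ne h1 fun h2 => hij ?_
    have h3 : #(univ.image (fun i => u i % p)) = #(univ : Finset (Fin k)) := by
      rw [h2]
      simp
    have h4 := card_image_iff.1 h3
    exact h4 (Finset.mem_coe.2 (mem_univ i)) (Finset.mem_coe.2 (mem_univ j)) h
  · intro h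
    by_contra hcon
    push Not at hcon
    have h1 : #(univ.image (fun i => u i % p)) = k := by
      rw [card_image_of_injective]
      · simp
      · intro i j hij
        by_contra hne
        exact hcon i j hne hij
    omega

end Run7.h824.PK
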