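import Pool.Agent.Run7.h824.PK.Br
import Pool.Agent.Run7.h824.KT.SQK

/-!
# Project PK (helper994), piece SQK: the second moment of the truncated singular series (helper824)
-/

set_option autoImplicit false

namespace Run7.h824.PK

open Finset Filter Topology Polynomial
open Pool.Agent.H373R2.T7 (pz Vz mem_pz Vz_pos)
open Pool.Agent.TH204.WR (rho)
open Pool.Agent.N792 (V1)
open Run7.h462.KT (Q rk gk Pk sh ov eval_Q rk_le rk_le_deg rk_X_le rk_X_eq sum_rk_sh one_sub_nonneg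
  one_sub_le_one prodk_nonneg gk_nonneg gk_eq_prod)
open Run7.h704.BPD (crt_prod sum_Icc_le)
open Run7.h824.KT (periodK prodk_anti rk_per)

/-- **SQK.** -/
theorem sqk (F : ℤ[X]) (k : ℕ) (hl : F.leadingCoeff ≠ 0) (hd : 1 ≤ F.natDegree) (hDIV : Run7.h994.PK.S_DIVk k) :
    Run7.h994.PK.S_SQk F k := by
  classical
  intro E
  simp only [gk_eq]
  obtain ⟨c, hc, hlow⟩ := Pool.Agent.N792.Shp.V1_lower
  have hlim : Tendsto (fun N : ℕ => Real.log (N : ℝ)) atTop atTop :=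
    Real.tendsto_log_atTop.comp (tendsto_natCast_atTop_atTop (R := ℝ))
  obtain ⟨N₀, hN₀⟩ := eventually_atTop.1 (hlim.eventually_ge_atTop 1000)
  obtain ⟨C', hC'0, hC'⟩ := hDIV (4 ^ k * (2 * k + k * (k * F.natDegree))) (by positivity)
  obtain ⟨K, hK⟩ : ∃ K : ℝ, K = 1 + 2 * E / c := ⟨_, rfl⟩
  have hK1 : 1 ≤ K := by
    rw [hK]
    have : 0 ≤ 2 * (E : ℝ) / c := by positivity
    linarith
  obtain ⟨B, hB⟩ : ∃ B : ℝ, B = (4 ^ k) ^ F.leadingCoeff.natAbs *
    Real.exp (2 * (4 ^ k * (k * (k * F.natDegree)))) := ⟨_, rfl⟩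
  have hB1 : 1 ≤ B := by
    rw [hB]
    refine one_le_mul_of_one_le_of_one_le (one_le_pow₀ (one_le_pow₀ (by norm_num))) ?_
    exact Real.one_le_exp (by positivity)
  refine ⟨(K ^ k) ^ 2 * (2 * B) * C', ?_, N₀ + 1, ?_⟩
  · have h2 : (1 : ℝ) ≤ (K ^ k) ^ 2 := one_le_pow₀ (one_le_pow₀ hK1)
    refine one_le_mul_of_one_le_of_one_le (one_le_mul_of_one_le_of_one_le h2 ?_) ?_ <;> linarith
  intro A hA w hw2 hw H hH
  have hL := hN₀ A (by omega)
  obtain ⟨L, hLd⟩ : ∃ L : ℝ, L = Real.log (A : ℝ) := ⟨_, rfl⟩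
  rw [← hLd] at hL hw
  have hA0 : (0 : ℝ) < A := by exact_mod_cast (by omega : 0 < A)
  obtain ⟨T, hT⟩ : ∃ T : ℕ, T = ⌊L / 8⌋₊ := ⟨_, rfl⟩
  have hT1 : (T : ℝ) ≤ L / 8 := by rw [hT]; exact Nat.floor_le (by linarith)
  have hT2 : L / 8 - 1 < T := by rw [hT]; exact Nat.sub_one_lt_floor _
  have hT3 : 100 ≤ T := by
    have : (100 : ℝ) < T := by linarith
    exact_mod_cast this.le
  have hVV : ∀ z, Vz z = V1 z := fun z => rfl
  -- the ratio of the Mertens products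
  obtain ⟨w0, hw0, hw0T, hw0w, hR⟩ : ∃ w0 : ℕ, 2 ≤ w0 ∧ w0 ≤ T ∧ w0 ≤ w ∧ Vz w0 ≤ K * Vz w := by
    rcases le_or_gt w T with h | h
    · refine ⟨w, hw2, h, le_rfl, ?_⟩
      have := Vz_pos w
      nlinarith
    · refine ⟨T, by omega, le_rfl, h.le, ?_⟩
      rw [hVV, hVV]
      have h1 := Pool.Agent.N792.V1_le T (by omega)
      have h2 := hlow w (by omega)
      have hlT : 0 < Real.log T := Real.log_pos (by exact_mod_cast (by omega : 1 < T))
      have hlw : 0 < Real.log w := Real.log_pos (by exact_mod_cast (by omega : 1 < w))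
      have h3 : Real.log w ≤ E * Real.log L := by
        have h4 := Real.log_le_log (by exact_mod_cast (by omega : 0 < w)) hw
        rw [Real.log_pow] at h4
        exact h4
      have h4 : Real.log L ≤ 2 * Real.log T := by
        have h5 : L ≤ (T : ℝ) ^ 2 := by nlinarith
        have h6 := Real.log_le_log (by linarith) h5
        rw [Real.log_pow] at h6
        exact_mod_cast h6
      have h5 : 1 / Real.log T ≤ K * (c / Real.log w) := by
        rw [div_le_iff₀ hlT]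
        have h6 : K * (c / Real.log w) * Real.log T = K * c * Real.log T / Real.log w := by ring
        rw [h6, le_div_iff₀ hlw, one_mul]
        have h7 : K * c = c + 2 * E := by
          rw [hK]
          field_simp
        rw [h7]
        have h8 : (E : ℝ) * Real.log L ≤ E * (2 * Real.log T) := by gcongr
        have h9 : 0 ≤ c * Real.log T := by positivity
        linarith
      have h6 : K * (c / Real.log w) ≤ K * V1 w := mul_le_mul_of_nonneg_left h2 (by linarith)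
      linarith
  -- the pointwise comparison
  have hV0 : 0 < Vz w0 := Vz_pos w0
  have hVw : 0 < Vz w := Vz_pos w
  have hpt : ∀ a : Fin k → ℕ, (gk F a w) ^ 2 ≤ (K ^ k) ^ 2 * (gk F a w0) ^ 2 := by
    intro a
    rw [← mul_pow]
    refine pow_le_pow_left₀ (gk_nonneg F a w) ?_ 2
    have h1 := prodk_anti F a hw0w
    have h2 : (Vz w ^ k)⁻¹ ≤ K ^ k * (Vz w0 ^ k)⁻¹ := by
      rw [← div_eq_mul_inv, inv_eq_one_div, div_le_div_iff₀ (pow_pos hVw k) (pow_pos hV0 k), one_mul,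
        ← mul_pow]
      exact pow_le_pow_left₀ hV0.le hR k
    unfold gk
    calc (∏ p ∈ pz w, (1 - (rk F a p : ℝ) / p)) / Vz w ^ k
        = (Vz w ^ k)⁻¹ * ∏ p ∈ pz w, (1 - (rk F a p : ℝ) / p) := by rw [div_eq_inv_mul]
      _ ≤ (K ^ k * (Vz w0 ^ k)⁻¹) * ∏ p ∈ pz w0, (1 - (rk F a p : ℝ) / p) :=
          mul_le_mul h2 h1 (prodk_nonneg F a w) (by positivity)
      _ = _ := by ring
  obtain ⟨W, hW⟩ : ∃ W : ℕ, W = ∏ p ∈ pz w0, p := ⟨_, rfl⟩
  have hW0 : 0 < W := by rw [hW]; exact prod_pos fun p hp => (mem_pz.1 hp).2.pos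
  have hW4 : W ≤ 4 ^ w0 := by
    have h1 := primorial_le_four_pow w0
    refine le_trans (le_of_eq ?_) h1
    rw [hW, primorial]
    refine prod_congr ?_ fun _ _ => rfl
    ext p
    rw [mem_pz, mem_filter, mem_range]
    constructor
    · rintro ⟨h, hp⟩
      exact ⟨by omega, hp⟩
    · rintro ⟨h, hp⟩
      exact ⟨by omega, hp⟩
  have hWA : W ≤ A := by
    have h1 : ((4 ^ w0 : ℕ) : ℝ) ≤ A := by
      push_cast
      have h2 : (4 : ℝ) ^ w0 = Real.exp (w0 * Real.log 4) := by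
        rw [mul_comm, Real.exp_mul, Real.exp_log (by norm_num), Real.rpow_natCast]
      have h20 : (A : ℝ) = Real.exp L := by rw [hLd, Real.exp_log hA0]
      rw [h2, h20]
      refine Real.exp_le_exp.2 ?_
      have h3 : Real.log 4 ≤ 2 := by
        have : Real.log 4 = 2 * Real.log 2 := by
          rw [show (4 : ℝ) = 2 ^ 2 by norm_num, Real.log_pow]
          norm_num
        have := Real.log_two_lt_d9
        linarith
      have h4 : (w0 : ℝ) ≤ L / 8 := le_trans (by exact_mod_cast hw0T) hT1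
      have h5 : 0 ≤ Real.log 4 := Real.log_nonneg (by norm_num)
      calc (w0 : ℝ) * Real.log 4 ≤ L / 8 * 2 := by gcongr
        _ ≤ L := by linarith
    exact_mod_cast (le_trans (by exact_mod_cast hW4 : (W : ℝ) ≤ ((4 ^ w0 : ℕ) : ℝ)) h1)
  have hper : ∀ h : Fin k → ℕ, Function.Periodic (fun y : ℕ => (gk F (sh y h) w0) ^ 2) W := by
    intro h y
    have : gk F (sh (y + W) h) w0 = gk F (sh y h) w0 := by
      unfold gk
      congr 1
      refine prod_congr rfl fun p hp => ?_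
      obtain ⟨m, hm⟩ := dvd_prod_of_mem (fun p => p) hp
      have h1 : rk F (sh (y + m * p) h) p = rk F (sh y h) p := ((rk_per F h p).nat_mul m) y
      have h2 : y + W = y + m * p := by rw [hW, hm, mul_comm]
      rw [h2, h1]
    simp only
    rw [this]
  have hWr : (0 : ℝ) < W := by exact_mod_cast hW0
  have hone : ∀ h : Fin k → ℕ, ∑ y ∈ Icc 1 A, (gk F (sh y h) w) ^ 2 ≤ (K ^ k) ^ 2 * (2 * B) * A *
      ∏ p ∈ (pz w0).filter (fun p => 1 < p ∧ ov h p), (1 + 4 ^ k * (2 * k + k * (k * F.natDegree)) / (p : ℝ)) := by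
    intro h
    have h1 := sum_Icc_le _ (fun y => sq_nonneg (gk F (sh y h) w0)) W A hW0 hWA (hper h)
    have h2 := periodK F hl hd h w0
    rw [← hW, ← hB] at h2
    obtain ⟨P, hP⟩ : ∃ P : ℝ, P = ∏ p ∈ (pz w0).filter (fun p => 1 < p ∧ ov h p),
      (1 + 4 ^ k * (2 * k + k * (k * F.natDegree)) / (p : ℝ)) := ⟨_, rfl⟩
    rw [← hP] at h2 ⊢
    calc ∑ y ∈ Icc 1 A, (gk F (sh y h) w) ^ 2
        ≤ ∑ y ∈ Icc 1 A, (K ^ k) ^ 2 * (gk F (sh y h) w0) ^ 2 := sum_le_sum fun y _ => hpt _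
      _ = (K ^ k) ^ 2 * ∑ y ∈ Icc 1 A, (gk F (sh y h) w0) ^ 2 := by rw [mul_sum]
      _ ≤ (K ^ k) ^ 2 * (2 * A / W * ∑ y ∈ range W, (gk F (sh y h) w0) ^ 2) := by gcongr
      _ ≤ (K ^ k) ^ 2 * (2 * A / W * (W * (B * P))) := by gcongr
      _ = (K ^ k) ^ 2 * (2 * B) * A * P := by
        field_simp
  calc ∑ h ∈ Run7.h994.PK.inj k H, ∑ y ∈ Icc 1 A, (gk F (sh y h) w) ^ 2
      ≤ ∑ h ∈ Run7.h994.PK.inj k H, (K ^ k) ^ 2 * (2 * B) * A *
      ∏ p ∈ (pz w0).filter (fun p => 1 < p ∧ ov h p), (1 + 4 ^ k * (2 * k + k * (k * F.natDegree)) / (p : ℝ)) :=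
        sum_le_sum fun h _ => hone h
    _ = (K ^ k) ^ 2 * (2 * B) * A * ∑ h ∈ Run7.h994.PK.inj k H,
      ∏ p ∈ (pz w0).filter (fun p => Run7.h994.PK.nuk h p < k), (1 + 4 ^ k * (2 * k + k * (k * F.natDegree)) / (p : ℝ)) := by
        rw [mul_sum]
        refine sum_congr rfl fun h _ => ?_
        congr 1
        refine prod_congr (filter_congr fun p hp => ?_) fun _ _ => rfl
        rw [ov_iff]
        exact and_iff_right (mem_pz.1 hp).2.one_lt
    _ ≤ (K ^ k) ^ 2 * (2 * B) * A * (C' * (H : ℝ) ^ k) := by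
        refine mul_le_mul_of_nonneg_left ?_ (by positivity)
        exact hC' H hH w0
    _ = _ := by ring

end Run7.h824.PK
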